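import Pool.Agent.N805.VP.Base

/-! # VP/SPL: splitting into disjoint pieces, symmetry (helper401) -/

set_option autoImplicit false

open MeasureTheory Set Filter Topology

namespace Pool.Agent.N401.VP

open Pool.Agent.N805.VP

theorem bdd_all {ι : Type} (C : ι → Set ℝ) (A : Finset ι)
    (hC : ∀ a ∈ A, ∃ b : ℝ, C a ⊆ Icc (-b) b) : ∃ b : ℝ, ∀ a ∈ A, C a ⊆ Icc (-b) b := by
  classical
  choose! f hf using hC
  refine ⟨∑ a ∈ A, |f a|, fun a ha u hu => ?_⟩
  have h1 := hf a ha hu
  have h2 : |f a| ≤ ∑ a ∈ A, |f a| := Finset.single_le_sum (f := fun a => |f a|)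
    (fun _ _ => abs_nonneg _) ha
  have h3 := le_abs_self (f a)
  constructor <;> linarith [h1.1, h1.2]

theorem tup_split {ι : Type} [DecidableEq ι] (J : Finset ℕ) (x : ℕ → ℝ) (C : ι → Set ℝ)
    (A : Finset ι) (hd : (A : Set ι).PairwiseDisjoint C) (k : ℕ) (t : ℝ) :
    (tup J x (fun _ : Fin k => ⋃ a ∈ A, C a) t).card =
      ∑ g ∈ Fintype.piFinset (fun _ : Fin k => A), (tup J x (fun i => C (g i)) t).card := by
  classical
  rw [← Finset.card_biUnion]
  · congr 1
    ext j
    rw [Finset.mem_biUnion, mem_tup]
    constructor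
    · rintro ⟨h1, h2, h3⟩
      have h4 : ∀ i, ∃ a ∈ A, x (j i) - t ∈ C a := fun i => by
        have := h3 i
        simpa only [mem_iUnion, exists_prop] using this
      choose g hg1 hg2 using h4
      exact ⟨g, Fintype.mem_piFinset.2 hg1, mem_tup.2 ⟨h1, h2, hg2⟩⟩
    · rintro ⟨g, hg, hj⟩
      rw [mem_tup] at hj
      rw [Fintype.mem_piFinset] at hg
      exact ⟨hj.1, hj.2.1, fun i => mem_iUnion₂.2 ⟨g i, hg i, hj.2.2 i⟩⟩
  · intro g hg g' hg' hne
    rw [Finset.mem_coe, Fintype.mem_piFinset] at hg hg'
    rw [Function.onFun, Finset.disjoint_left]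
    intro j hj hj'
    rw [mem_tup] at hj hj'
    obtain ⟨i, hi⟩ := Function.ne_iff.1 hne
    exact Set.disjoint_left.1 (hd (hg i) (hg' i) hi) (hj.2.2 i) (hj'.2.2 i)

theorem SPL : Pool.Agent.N805.VP.S_SPL := by
  classical
  refine ⟨?_, ?_⟩
  · intro ι _ J x C A hC hd k
    obtain ⟨b, hb⟩ := bdd_all C A fun a ha => (hC a ha).2
    constructor
    · rcases Nat.eq_zero_or_pos k with hk | hk
      · subst hk
        have h1 : Fintype.piFinset (fun _ : Fin 0 => A) = {fun i => i.elim0} := by
          ext g
          simp only [Fintype.mem_piFinset, Finset.mem_singleton, IsEmpty.forall_iff, true_iff]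
          exact Subsingleton.elim _ _
        rw [h1, Finset.sum_singleton]
        congr 1
        exact Subsingleton.elim _ _
      · unfold mom
        simp_rw [tup_split J x C A hd k]
        push_cast
        rw [integral_finset_sum]
        intro g hg
        rw [Fintype.mem_piFinset] at hg
        exact int_tup hk (fun i => (hC _ (hg i)).1) ⟨b, fun i => hb _ (hg i)⟩
    · unfold G
      have h1 : Set.pi univ (fun _ : Fin k => ⋃ a ∈ A, C a) =
          ⋃ g ∈ Fintype.piFinset (fun _ : Fin k => A), Set.pi univ fun i => C (g i) := by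
        ext q
        simp only [Set.mem_pi, mem_univ, forall_true_left, mem_iUnion, exists_prop,
          Fintype.mem_piFinset]
        constructor
        · intro h
          choose g hg1 hg2 using h
          exact ⟨g, hg1, hg2⟩
        · rintro ⟨g, hg1, hg2⟩ i
          exact ⟨g i, hg1 i, hg2 i⟩
      rw [h1, integral_biUnion_finset]
      · intro g hg
        rw [Fintype.mem_piFinset] at hg
        exact MeasurableSet.univ_pi fun i => (hC _ (hg i)).1
      · intro g hg g' hg' hne
        rw [Finset.mem_coe, Fintype.mem_piFinset] at hg hg'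
        rw [Function.onFun, Set.disjoint_left]
        intro q hq hq'
        obtain ⟨i, hi⟩ := Function.ne_iff.1 hne
        exact Set.disjoint_left.1 (hd (hg i) (hg' i) hi) (hq i (mem_univ i)) (hq' i (mem_univ i))
      · intro g hg
        rw [Fintype.mem_piFinset] at hg
        exact D_int ⟨b, fun i => hb _ (hg i)⟩
  · intro J x k σ c
    constructor
    · unfold mom
      congr 1
      funext t
      congr 1
      refine Finset.card_bij (fun j _ => fun i => j (σ.symm i)) ?_ ?_ ?_
      · intro j hj
        rw [mem_tup] at hj ⊢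
        refine ⟨fun i => hj.1 _, hj.2.1.comp σ.symm.injective, fun i => ?_⟩
        have := hj.2.2 (σ.symm i)
        rwa [Equiv.apply_symm_apply] at this
      · intro j _ j' _ h
        funext i
        have := congrFun h (σ i)
        simpa using this
      · intro j hj
        refine ⟨fun i => j (σ i), ?_, ?_⟩
        · rw [mem_tup] at hj ⊢
          exact ⟨fun i => hj.1 _, hj.2.1.comp σ.injective, fun i => hj.2.2 (σ i)⟩
        · funext i
          simp
    · have hmp := volume_preserving_arrowCongr' σ.symm (MeasurableEquiv.refl ℝ)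
        (MeasurePreserving.id _)
      have h1 := hmp.setIntegral_preimage_emb
        (MeasurableEquiv.measurableEmbedding _) (fun q : Fin k → ℝ => D q)
        (Set.pi univ fun i => c (σ i))
      unfold G
      rw [← h1]
      have h2 : ∀ q : Fin k → ℝ, (MeasurableEquiv.arrowCongr' σ.symm (MeasurableEquiv.refl ℝ)) q =
          fun i => q (σ i) := fun q => rfl
      have h3 : (MeasurableEquiv.arrowCongr' σ.symm (MeasurableEquiv.refl ℝ)) ⁻¹'
          (Set.pi univ fun i => c (σ i)) = Set.pi univ c := by
        ext q
        simp only [mem_preimage, h2, Set.mem_pi, mem_univ, forall_true_left]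
        exact ⟨fun h i => by simpa using h (σ.symm i), fun h i => h (σ i)⟩
      rw [h3]
      simp_rw [h2, D_perm]

end Pool.Agent.N401.VP
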